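import Pool.Agent.helper56.NR.Spec

set_option autoImplicit false

open Complex Metric Set Filter Topology MeasureTheory Pool.Agent.helper98.ILF

open EX (ff)

noncomputable section

namespace NR

theorem XF (hWIN : WIN_stmt) (hXL : XL_stmt) : XF_stmt := by
  intro a K l β σ B ha hpos hQ hσ hB hfirst
  have hB0 : 0 ≤ B := le_trans (hpos 0 (Nat.zero_le _)).2.le (hB 0 (Nat.zero_le _))
  have claim : ∀ k, k ≤ K → l k ≤ σ * β k := by
    intro k
    induction k using Nat.strong_induction_on with
    | _ k ih =>
      intro hk
      by_cases hs : ∑ m ∈ Finset.range k, l m ≤ l k / 2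
      · exact hfirst k hk hs
      · push Not at hs
        have h1 : l k ≤ 8 * σ / a * β k := by
          refine hWIN a K l β ha hpos hQ σ 0 k hk hσ ?_ ?_ ?_
          · intro j _ hj
            exact ih j hj (by omega)
          · intro p' q' B' _ hq' hB' hβ
            refine hXL a K l β ha hpos hQ σ B' p' q' (by omega) hσ hB' ?_
            intro m hm
            have hm2 := (Finset.mem_Icc.mp hm).2
            exact ⟨ih m (by omega) (by omega), hβ m hm⟩
          · have : Finset.Ico 0 k = Finset.range k := by
              ext x; simp
            rw [this]; exact hs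
        have hβk : 0 ≤ β k := (hpos k hk).2.le
        have h2 : 8 * σ / a ≤ σ := by
          rw [div_le_iff₀ (by linarith)]
          nlinarith
        exact h1.trans (mul_le_mul_of_nonneg_right h2 hβk)
  have hr : Finset.range (K + 1) = Finset.Icc 0 K := by
    ext x; simp
  rw [hr]
  refine hXL a K l β ha hpos hQ σ B 0 K le_rfl hσ hB0 ?_
  intro m hm
  have hm2 := (Finset.mem_Icc.mp hm).2
  exact ⟨claim m hm2, hB m hm2⟩

end NR
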